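import Pool.Agent.H94.UD.Limit
import Pool.Agent.H94.UD.Exist

/-!
# MP_06b9ab_al, Q2: locally finite dense subgroups do not distinguish Urysohn isometry groups

The distance value sets `S n = {n + 2, ..., 2 n + 3}` are pairwise inequivalent, and for all `n`
and `k` every countable locally finite dense subgroup of the isometry group of the Urysohn
`S n`-metric space embeds as a dense subgroup of the isometry group of the Urysohn `S k`-metric
space. So the answer to Q2 is negative.
-/

namespace Pool.Agent.Results.MP_06b9ab_al.NoLocallyFiniteWitness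

open Pool.Agent.H94.UD

/-- The set of the integers from `n + 2` to `2 * n + 3`. -/
private def famS (n : ℕ) : Set ℝ := (fun k : ℕ => (k : ℝ)) '' Set.Icc (n + 2) (2 * n + 3)

private theorem mem_famS {n : ℕ} {x : ℝ} :
    x ∈ famS n ↔ ∃ k : ℕ, (n + 2 ≤ k ∧ k ≤ 2 * n + 3) ∧ (k : ℝ) = x := Iff.rfl

private theorem fin_famS (n : ℕ) : (famS n).Finite := (Set.finite_Icc _ _).image _

private theorem low_famS {n : ℕ} {x : ℝ} (hx : x ∈ famS n) : (n : ℝ) + 2 ≤ x := by
  obtain ⟨k, hk, rfl⟩ := mem_famS.1 hx
  exact_mod_cast hk.1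

private theorem high_famS {n : ℕ} {x : ℝ} (hx : x ∈ famS n) : x ≤ 2 * (n : ℝ) + 3 := by
  obtain ⟨k, hk, rfl⟩ := mem_famS.1 hx
  exact_mod_cast hk.2

private theorem top_mem (n : ℕ) : 2 * (n : ℝ) + 3 ∈ famS n :=
  mem_famS.2 ⟨2 * n + 3, ⟨by omega, le_rfl⟩, by push_cast; ring⟩

private theorem bot_mem (n : ℕ) : (n : ℝ) + 2 ∈ famS n :=
  mem_famS.2 ⟨n + 2, ⟨le_rfl, by omega⟩, by push_cast; ring⟩

private theorem free_famS (n : ℕ) : IsFree (famS n) ((n : ℝ) + 2) where
  pos := by positivity
  low := fun x hx => low_famS hx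
  high := fun x hx => by
    have := high_famS hx
    linarith

private theorem sSup_famS (n : ℕ) : sSup (famS n) = 2 * (n : ℝ) + 3 :=
  IsGreatest.csSup_eq ⟨top_mem n, fun _ hx => high_famS hx⟩

private theorem dvs_famS (n : ℕ) : IsDistanceValueSet (famS n) where
  nonempty := ⟨_, top_mem n⟩
  pos := fun x hx => (free_famS n).pos.trans_le (low_famS hx)
  bounded := by
    intro _ x hx y hy
    have h1 := low_famS hx
    have h2 := low_famS hy
    rw [sSup_famS, min_eq_right (by linarith)]
    exact top_mem n
  unbounded := fun h => absurd (fin_famS n).bddAbove h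

private theorem ncard_famS (n : ℕ) : Nat.card (famS n) = n + 2 := by
  rw [famS, Nat.card_image_of_injective Nat.cast_injective]
  simp
  omega

private theorem embeds {n k : ℕ} (U V : Type) [MetricSpace U] [MetricSpace V]
    (hU : IsUrysohn (famS n) U) (hV : IsUrysohn (famS k) V) (G : Subgroup (U ≃ᵢ U))
    (hc : Countable G) (hG : IsLocallyFiniteGroup G) (hd : IsDenseIn U (G : Set (U ≃ᵢ U))) :
    EmbedsDensely G V := by
  have hne : (n : ℝ) + 2 ≠ 2 * (n : ℝ) + 3 := by
    have : (0 : ℝ) ≤ n := Nat.cast_nonneg n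
    intro h
    linarith
  exact embeds_of_star (free_famS k) (fin_famS k) (top_mem k) hG
    (star_of_dense (free_famS n) (fin_famS n) hU (bot_mem n) (top_mem n) hne G hG hd) hV

/-- There is an infinite family of pairwise inequivalent countable distance value sets such that
every countable locally finite dense subgroup of the isometry group of the Urysohn space over one
member of the family embeds as a dense subgroup of the isometry group of the Urysohn space over
any other member: the answer to Q2 is negative. -/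
theorem result :
    ∃ S : ℕ → Set ℝ,
      (∀ n, (S n).Countable ∧ IsDistanceValueSet (S n) ∧
        ∃ (U : Type) (_ : MetricSpace U), IsUrysohn (S n) U) ∧
      (∀ n k, n ≠ k → ¬ Equivalent (S n) (S k)) ∧
      ∀ (n k : ℕ) (U V : Type) [MetricSpace U] [MetricSpace V],
        IsUrysohn (S n) U → IsUrysohn (S k) V →
        ∀ G : Subgroup (U ≃ᵢ U), Countable G → IsLocallyFiniteGroup G →
          IsDenseIn U (G : Set (U ≃ᵢ U)) → EmbedsDensely G V := by
  refine ⟨famS, ?_, ?_, ?_⟩
  · intro n
    exact ⟨(fin_famS n).countable, dvs_famS n,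
      exists_urysohn (free_famS n) (fin_famS n) ⟨_, top_mem n⟩⟩
  · rintro n k hnk ⟨t, -⟩
    apply hnk
    have h1 := Nat.card_congr t
    rw [ncard_famS, ncard_famS] at h1
    omega
  · intro n k U V _ _ hU hV G hc hG hd
    exact embeds U V hU hV G hc hG hd

end Pool.Agent.Results.MP_06b9ab_al.NoLocallyFiniteWitness
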